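import Pool.Agent.Mob.Defs

/-!
# Metal-insulator transport transition: the statements of the modules

The proofs are in `/team-store/PAPER_T2.md` (the section has the name of the module).
-/

set_option autoImplicit false

open MeasureTheory ProbabilityTheory Function

open scoped ENNReal BigOperators InnerProductSpace

noncomputable section

namespace Pool.Agent.Mob

open Pool.Agent.Anderson Pool.Agent.Loc Pool.Agent.Helper54.Bal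

/-! ### A. from time averages to cells -/

/-- GZB: finite volume resolvent, elementary facts. -/
def GzbStmt : Prop :=
  ∀ (d : ℕ) (V : Site d → ℝ) (Λ : Finset (Site d)) (x y : Site d),
    (∀ E : ℝ, gz V Λ (E : ℂ) x y = (gr V Λ E x y : ℂ)) ∧
    (∀ z : ℂ, z.im ≠ 0 → (z • (1 : Matrix Λ Λ ℂ) - HC V Λ).det ≠ 0 ∧
      ‖gz V Λ z x y‖ ≤ |z.im|⁻¹) ∧
    (∀ E r : ℝ, 0 < r → NoEig V Λ E (2 * r) → ∀ z : ℂ, |z.re - E| ≤ r →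
      (z • (1 : Matrix Λ Λ ℂ) - HC V Λ).det ≠ 0 ∧ ‖gz V Λ z x y‖ ≤ r⁻¹ ∧
        DifferentiableAt ℂ (fun z => gz V Λ z x y) z)

/-- NRM: if `E` is at distance more than `r` from the spectrum of `H_Λ` then
`‖(H_Λ - E) f‖ ≥ r ‖f‖`. -/
def NrmStmt : Prop :=
  ∀ (d : ℕ) (V : Site d → ℝ) (Λ : Finset (Site d)) (E r : ℝ), 0 < r → NoEig V Λ E r →
    ∀ f : Site d → ℂ, (∀ x, x ∉ Λ → f x = 0) →
      r ^ 2 * ∑ x ∈ Λ, ‖f x‖ ^ 2 ≤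
        ∑ x ∈ Λ, ‖lap f x + (V x : ℂ) * f x - (E : ℂ) * f x‖ ^ 2

/-- HOL: from the height `η` down to the real axis. -/
def HolStmt : Prop :=
  ∀ (d : ℕ) (V : Site d → ℝ) (Λ : Finset (Site d)) (x y : Site d) (E r η ε : ℝ), 0 < η →
    8 * η ≤ r → 0 ≤ ε → NoEig V Λ E (2 * r) →
    (∀ F : ℝ, |F - E| ≤ r → ‖gz V Λ (zz η F) x y‖ ≤ ε) →
    |gr V Λ E x y| ≤ max (3 * ε) (3 / r * Real.exp (-r / (4 * η)))

/-- WEG: Wegner estimate, linear in the volume. -/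
def WegStmt : Prop :=
  ∀ (d : ℕ) (ν : Measure ℝ) [IsProbabilityMeasure ν] (ρ : ℝ), BddDens ν ρ →
    ∀ (Λ : Finset (Site d)) (E r : ℝ), 0 < r →
      MeasurableSet {V : Site d → ℝ | NoEig V Λ E r} ∧
      PL ν Λ {V | ¬ NoEig V Λ E r} ≤ ENNReal.ofReal (64 * ρ * Λ.card * r)

/-- FVL: finite volume against infinite volume, at positive height. -/
def FvlStmt : Prop :=
  ∀ (d : ℕ) (V : Site d → ℝ) (Λ : Finset (Site d)) (η E ε : ℝ) (ℓ : ℕ) (x y : Site d), 0 < η →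
    0 ≤ ε → x ∈ Λ → y ∈ Λ → (∀ u, u ∉ Λ → ℓ ≤ sd x u) → ℓ ≤ sd x y →
    (∀ u, ℓ ≤ sd x u → ‖G V (zz η E) (del x) u‖ ≤ ε) →
    ‖gz V Λ (zz η E) x y‖ ≤ ε * (1 + 2 * d * Λ.card / η)

/-- PTW: from an integral over the energies to a single energy. -/
def PtwStmt : Prop :=
  ∀ (d : ℕ) (V : Site d → ℝ) (x u : Site d) (η h E a b : ℝ), 0 < η → 0 < h → a < E →
    E + h < b →
    ENNReal.ofReal (‖G V (zz η E) (del x) u‖ ^ 2) ≤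
      ENNReal.ofReal (2 / h) *
        ∫⁻ F in Set.Ioo a b, ENNReal.ofReal (‖G V (zz η F) (del x) u‖ ^ 2) +
      ENNReal.ofReal (2 * h ^ 2 / η ^ 4)

/-- SHF: measurability and shift invariance. -/
def ShfStmt : Prop :=
  ∀ (d : ℕ) (ν : Measure ℝ) [IsProbabilityMeasure ν] (η : ℝ), η ≠ 0 →
    ∀ (a b : ℝ) (ℓ : ℕ) (x : Site d),
      Measurable (fun V : Site d → ℝ => spr V x η (Set.Ioo a b) ℓ) ∧
      ∫⁻ V, spr V x η (Set.Ioo a b) ℓ ∂(PP d ν) = ∫⁻ V, spr V 0 η (Set.Ioo a b) ℓ ∂(PP d ν)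

/-- CEL: a small time averaged spreading makes the cells good with high probability. -/
def CelStmt : Prop :=
  ∀ d : ℕ, 1 ≤ d → ∀ σ : ℝ, σ ≠ 0 → ∀ δ h : ℝ, 0 < δ → δ ≤ 1 → 0 < h →
    ∃ ℓ₀ : ℕ, ∀ ℓ : ℕ, ℓ₀ ≤ ℓ → ∀ η : ℝ, (ℓ : ℝ) ^ (-((d : ℝ) + 1)) ≤ η →
      η ≤ (ℓ : ℝ) ^ (-((d : ℝ) + δ)) → ∀ a b : ℝ,
      ENNReal.ofReal η * ∫⁻ V, spr V 0 η (Set.Ioo a b) ℓ ∂(PP d (gl σ)) ≤
        ENNReal.ofReal ((ℓ : ℝ) ^ (-(400 * (d : ℝ)))) →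
      ∀ E : ℝ, a + h ≤ E → E + h ≤ b → ∀ c : Site d,
        PL (gl σ) (box c (3 * ℓ)) {V | ¬ CellGood V c ℓ ((ℓ : ℝ) ^ (-(120 * (d : ℝ)))) E} ≤
          ENNReal.ofReal ((ℓ : ℝ) ^ (-(δ / 4)))

/-! ### B. from cells to the finite volume criterion -/

/-- the centres of the cells which cover the sphere of radius `10 i ℓ + 1` about `x` -/
def cells {d : ℕ} (x : Site d) (ℓ i : ℕ) : Finset (Site d) :=
  ((box (0 : Site d) (10 * i + 1)).filter fun k => 10 * i ≤ sd 0 k).image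
    fun k j => x j + ℓ * k j

/-- ANA: one good annulus makes the Green function between the centre and the boundary small. -/
def AnaStmt : Prop :=
  ∀ (d : ℕ) (V : Site d → ℝ) (E A τ : ℝ) (m ℓ i : ℕ) (x u : Site d), 1 ≤ ℓ → 1 ≤ i → i ≤ m →
    0 ≤ A → 0 ≤ τ → sd x u = 10 * (m + 1) * ℓ →
    (RM V (box x (10 * (m + 1) * ℓ)) E).det ≠ 0 → (RM V (box x (10 * i * ℓ)) E).det ≠ 0 →
    (∀ v, |gr V (box x (10 * i * ℓ)) E x v| ≤ τ) →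
    (∀ w, |gr V (box x (10 * (m + 1) * ℓ)) E w u| ≤ τ) →
    (∀ c ∈ cells x ℓ i, CellGood V c ℓ A E) →
    |gr V (box x (10 * (m + 1) * ℓ)) E x u| ≤
      τ ^ 2 * A * (2 * d * (20 * (m + 1) * ℓ + 1) ^ d) ^ 2

/-- ANB: the probability that all the annuli are bad. -/
def AnbStmt : Prop :=
  ∀ (d : ℕ) (ν : Measure ℝ) [IsProbabilityMeasure ν] (E A p : ℝ) (m ℓ : ℕ) (x : Site d),
    1 ≤ ℓ → 0 ≤ p →
    (∀ c : Site d, PL ν (box c (3 * ℓ)) {V | ¬ CellGood V c ℓ A E} ≤ ENNReal.ofReal p) →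
    PL ν (box x (10 * (m + 1) * ℓ))
        {V | ∀ i : ℕ, 1 ≤ i → i ≤ m → ∃ c ∈ cells x ℓ i, ¬ CellGood V c ℓ A E} ≤
      ENNReal.ofReal (((20 * m + 23) ^ d * p) ^ m)

/-- ANN: the initial scale estimate from the cells. -/
def AnnStmt : Prop :=
  ∀ (d : ℕ) (ν : Measure ℝ) [IsProbabilityMeasure ν] (ρ : ℝ), BddDens ν ρ →
    ∀ (m ℓ : ℕ) (A τ p E : ℝ), 1 ≤ m → 1 ≤ ℓ → 0 ≤ A → 0 < τ → 0 ≤ p →
    (∀ c : Site d, PL ν (box c (3 * ℓ)) {V | ¬ CellGood V c ℓ A E} ≤ ENNReal.ofReal p) →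
    BulkInit d ν (10 * (m + 1) * ℓ)
      ((τ ^ 2 * A * (2 * d * (20 * (m + 1) * ℓ + 1) ^ d) ^ 2) ^ (1 / 8 : ℝ) +
        √((1 + 2 * √(6 * ρ)) * ((m + 1) * ((20 * (m + 1) * ℓ + 1) ^ d) ^ 2 * (6 * ρ / τ) +
          ((20 * m + 23) ^ d * p) ^ m))) E

/-- INI: slow spreading near `E₀` implies `E₀ ∈ LocSet`. -/
def IniStmt : Prop :=
  ∀ d : ℕ, 1 ≤ d → ∀ C₀ σ : ℝ, 0 < C₀ → σ ≠ 0 → ∀ δ a b E₀ : ℝ, 0 < δ → δ ≤ 1 → a < E₀ →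
    E₀ < b → ∃ T₀ : ℝ, 1 ≤ T₀ ∧ ∀ T : ℝ, T₀ ≤ T →
      ∫⁻ V, spread V T (T ^ (1 / ((d : ℝ) + δ))) (Set.Ioo a b) ∂(PP d (gl σ)) <
        ENNReal.ofReal (T ^ (-400 : ℝ)) → E₀ ∈ LocSet d C₀ σ

/-! ### C. the criterion in the bulk -/

/-- AFF: reverse Hölder inequality for quotients of affine functions. -/
def AffStmt : Prop :=
  ∃ C : ℝ, 0 < C ∧ ∀ a b c e : ℝ,
    ∫⁻ t, p8 ((a + b * t) / (c + e * t)) ^ 2 ∂γ1 ≤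
      ENNReal.ofReal C * (∫⁻ t, p8 ((a + b * t) / (c + e * t)) ∂γ1) ^ 2

/-- DEC: decoupling at two sites. -/
def DecStmt : Prop :=
  ∃ C : ℝ, 0 < C ∧ ∀ (d : ℕ) (σ : ℝ) (Λ₁ Λ₂ : Finset (Site d)) (E : ℝ)
    (a b c e i j : Site d) (V : Site d → ℝ),
    (∫⋯∫⁻_{i, j}, (fun V => pg Λ₁ E a b V * pg Λ₂ E c e V) ∂(fun _ => gl σ)) V ≤
      ENNReal.ofReal C * ((∫⋯∫⁻_{i, j}, pg Λ₁ E a b ∂(fun _ => gl σ)) V *
        (∫⋯∫⁻_{i, j}, pg Λ₂ E c e ∂(fun _ => gl σ)) V)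

/-- exponential decay of the fractional moments in a cube, away from its boundary -/
def BlkAt (d : ℕ) (C₀ σ : ℝ) : Prop :=
  ∀ (E : ℝ) (L : ℕ), Crit d C₀ σ E L → ∀ (R k : ℕ) (c w y : Site d),
    sd c w + k * (L + 2) ≤ R → y ∈ box c R → k * (L + 2) ≤ sd w y →
      ∫⁻ V, pg (box c R) E w y V ∂(PL (gl σ) (box c R)) ≤
        ENNReal.ofReal (C₀ * (1 + 1 / |σ|) * Real.exp (-k))

/-- GEO: the geometric resolvent identity with both points in the smaller set. -/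
def GeoStmt : Prop :=
  ∀ (d : ℕ) (V : Site d → ℝ) (Λ A : Finset (Site d)) (E : ℝ), A ⊆ Λ →
    (RM V Λ E).det ≠ 0 → (RM V A E).det ≠ 0 → ∀ x ∈ A, ∀ y ∈ A,
      gr V Λ E x y = gr V A E x y +
        ∑ u ∈ A, ∑ u' ∈ Λ \ A, gr V A E x u * hop u u' * gr V Λ E u' y

/-- RET: return from the depleted cube to the full cube. -/
def RetStmt : Prop :=
  ∀ d : ℕ, 1 ≤ d → ∃ C₁ : ℝ, 0 < C₁ ∧ ∀ σ : ℝ, σ ≠ 0 → ∀ (E : ℝ) (L R : ℕ)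
    (c w y v' : Site d) (F : ℝ≥0∞), sd c w + (L + 2) ≤ R → y ∈ box c R \ box w (L + 1) →
    v' ∈ box c R \ box w (L + 1) → sd w v' ≤ L + 2 →
    (∀ t ∈ box c R, sd w t ≤ L + 2 →
      ∫⁻ V, pg (box c R) E t y V ∂(PL (gl σ) (box c R)) ≤ F) →
    ∫⁻ V, pg (box c R \ box w (L + 1)) E v' y V ∂(PL (gl σ) (box c R \ box w (L + 1))) ≤
      ENNReal.ofReal (C₁ * (1 + 1 / |σ|) ^ (1 / 2 : ℝ) * (2 * L + 5) ^ (2 * d)) * F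

/-- BLK: the criterion implies exponential decay in the bulk. -/
def BlkStmt : Prop :=
  ∀ d : ℕ, 1 ≤ d → ∃ C₀ : ℝ, 0 < C₀ ∧ ∀ σ : ℝ, σ ≠ 0 → BlkAt d C₀ σ

/-- LRG: large disorder. -/
def LrgStmt : Prop :=
  ∀ d : ℕ, 1 ≤ d → ∀ C₀ : ℝ, 0 < C₀ → ∃ σ₁ : ℝ, 0 < σ₁ ∧ ∀ σ : ℝ, σ₁ ≤ |σ| →
    ∀ E : ℝ, Crit d C₀ σ E 0

/-- EDG: the edges of the spectrum. -/
def EdgStmt : Prop :=
  ∀ d : ℕ, 3 ≤ d → ∃ C : ℝ, 0 < C ∧ ∀ C₀ σ : ℝ, 0 < C₀ → σ ≠ 0 → ∃ L : ℕ, ∀ E : ℝ,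
    2 * d + watson d * σ ^ 2 + C * |σ| ^ (2 + 1 / (24 * d : ℝ)) ≤ |E| → Crit d C₀ σ E L

/-! ### D. localization -/

/-- BDC: decay in probability in full cubes. -/
def BdcStmt : Prop :=
  ∀ (d : ℕ) (C₀ σ : ℝ), 1 ≤ d → 0 < C₀ → σ ≠ 0 → BlkAt d C₀ σ → ∀ (I : Set ℝ) (L : ℕ),
    (∀ E ∈ I, Crit d C₀ σ E L) → ∃ C μ : ℝ, 0 < μ ∧ BulkDecay d (gl σ) I C μ

/-- TBX: two cubes are not bad at the same energy. -/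
def TbxStmt : Prop :=
  ∀ (d : ℕ) (ν : Measure ℝ) [IsProbabilityMeasure ν] (a b C μ : ℝ), 1 ≤ d → 0 < μ →
    BulkDecay d ν (Set.Icc a b) C μ → ∀ᵐ V ∂(PP d ν), ∃ L₀, TB V (Set.Icc a b) μ L₀

/-- SEP: separation of the spectra of the inner cube and of the shell. -/
def SepStmt : Prop :=
  ∀ (d : ℕ) (ν : Measure ℝ) [IsProbabilityMeasure ν] (ρ : ℝ), BddDens ν ρ → ∀ a b : ℝ,
    ∀ᵐ V ∂(PP d ν), ∃ k₀, Sep V (Set.Icc a b) k₀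

/-- DCY: polynomially bounded solutions decay exponentially. -/
def DcyStmt : Prop :=
  ∀ (d : ℕ) (V : Site d → ℝ) (I : Set ℝ) (μ : ℝ) (L₀ : ℕ), 1 ≤ d → 0 < μ → TB V I μ L₀ →
    ∀ E ∈ I, ∀ ψ : Site d → ℂ,
      (∃ (K : ℝ) (k : ℕ), ∀ x, ‖ψ x‖ ≤ K * (1 + (sd 0 x : ℝ)) ^ k) →
      (∀ x, lap ψ x + (V x : ℂ) * ψ x = (E : ℂ) * ψ x) →
      ∃ K : ℝ, ∀ x, ‖ψ x‖ ≤ K * Real.exp (-(μ / 4) * sd 0 x)

/-- DIC: an eigenvector of the cube of radius `8k` is small either in the inner cube or in the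
shell. -/
def DicStmt : Prop :=
  ∀ (d : ℕ) (V : Site d → ℝ) (I : Set ℝ) (μ : ℝ) (L₀ k₀ : ℕ), 1 ≤ d → 0 < μ → TB V I μ L₀ →
    Sep V I k₀ → ∃ k₁ : ℕ, ∀ k : ℕ, k₁ ≤ k → ∀ E ∈ I, ∀ ψ : Site d → ℂ,
      FinEig V (8 * k) E ψ →
      (∀ x ∈ box (0 : Site d) (2 * k), ‖ψ x‖ ≤ Real.exp (-(μ / 2) * k)) ∨
      ∑ x ∈ box (0 : Site d) (8 * k) \ box 0 (5 * k), ‖ψ x‖ ^ 2 ≤ Real.exp (-(μ / 2) * k)

/-- CEN: decay from the centre, for centres and sites in the bulk. -/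
def CenStmt : Prop :=
  ∀ (d : ℕ) (V : Site d → ℝ) (I : Set ℝ) (μ : ℝ) (L₀ : ℕ), 1 ≤ d → 0 < μ → TB V I μ L₀ →
    ∃ (C₁ : ℝ) (R₀ : ℕ), 1 ≤ C₁ ∧ ∀ (n : ℕ) (E : ℝ) (ψ : Site d → ℂ) (c : Site d), E ∈ I →
      FinEig V n E ψ → IsCenter n ψ c → 4 * sd 0 c ≤ 3 * n → ∀ x : Site d,
        4 * sd 0 x ≤ 3 * n → R₀ ≤ sd c x → 100 * sd 0 c ≤ (sd c x) ^ 2 →
        ‖ψ x‖ ≤ C₁ * Real.exp (-(μ / 8) * sd c x) * ‖ψ c‖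

/-- CMP: completeness of the localized eigenfunctions. -/
def CmpStmt : Prop :=
  ∀ (d : ℕ) (V : Site d → ℝ) (c r μ : ℝ) (L₀ k₀ : ℕ), 1 ≤ d → 0 < μ →
    TB V (Set.Icc (c - r) (c + r)) μ L₀ → Sep V (Set.Icc (c - r) (c + r)) k₀ →
    ∀ u w : L2 d, (∀ x, w x = lap u x + (V x : ℂ) * u x) →
      (∀ (E : ℝ) (ψ : L2 d), E ∈ Set.Icc (c - r) (c + r) → IsEigen V E ψ → ⟪ψ, u⟫_ℂ = 0) →
      r * ‖u‖ ≤ ‖w - (c : ℂ) • u‖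

/-! ### E. time -/

/-- TIM: the time averaged moments and the resolvent. -/
def TimStmt : Prop :=
  ∀ (d : ℕ) (V : Site d → ℝ) (ψ : ℝ → L2 d), IsEvolution V ψ → ∀ (T p R : ℝ), 0 < T → 0 ≤ p →
    1 ≤ R → ∀ a b : ℝ,
      ENNReal.ofReal (R ^ p / Real.pi) * spread V T R (Set.Ioo a b) ≤ avgMoment ψ T p

end Pool.Agent.Mob
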