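import Pool.Agent.Helper48_Loc.Assembly
import Pool.Agent.Helper48_Loc.Complete2
import Pool.Agent.Helper54_Ballistic.Law

/-!
# Metal-insulator transport transition for the Anderson model: definitions
-/

set_option autoImplicit false
set_option linter.unusedSectionVars false

open MeasureTheory ProbabilityTheory Function

open scoped ENNReal BigOperators InnerProductSpace

noncomputable section

namespace Pool.Agent.Mob

open Pool.Agent.Anderson Pool.Agent.Loc Pool.Agent.Helper54.Bal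

variable {d : ℕ}

/-! ### finite volume -/

/-- The matrix elements of `(z - H_Λ)⁻¹` for complex `z`, extended by `0`. -/
def gz (V : Site d → ℝ) (Λ : Finset (Site d)) (z : ℂ) (x y : Site d) : ℂ :=
  if h : x ∈ Λ ∧ y ∈ Λ then
    (z • (1 : Matrix Λ Λ ℂ) - HC V Λ)⁻¹ ⟨x, h.1⟩ ⟨y, h.2⟩ else 0

/-- no eigenvalue of `H_Λ` at distance at most `r` from `E` -/
def NoEig (V : Site d → ℝ) (Λ : Finset (Site d)) (E r : ℝ) : Prop :=
  ∀ F : ℝ, |F - E| ≤ r → (RM V Λ F).det ≠ 0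

/-- A good cell: in the cube of radius `3ℓ` the Green function between a site of the cube of
radius `ℓ` and a site at distance at least `ℓ` is at most `A`. -/
def CellGood (V : Site d → ℝ) (c : Site d) (ℓ : ℕ) (A E : ℝ) : Prop :=
  (RM V (box c (3 * ℓ)) E).det ≠ 0 ∧ ∀ x ∈ box c ℓ, ∀ y ∈ box c (3 * ℓ), ℓ ≤ sd x y →
    |gr V (box c (3 * ℓ)) E x y| ≤ A

/-- The cube of radius `L` about `x` is good at the energy `E` (with the rate `μ`). -/
def FGood (V : Site d → ℝ) (L : ℕ) (x : Site d) (E μ : ℝ) : Prop :=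
  ∀ u, sd x u = L → Good V (box x L) E x u (Real.exp (-μ * L))

/-- Two distant cubes (with centres of size at most `L ^ 2`) are not simultaneously bad at an
energy of `I`. -/
def TB (V : Site d → ℝ) (I : Set ℝ) (μ : ℝ) (L₀ : ℕ) : Prop :=
  ∀ L : ℕ, L₀ ≤ L → ∀ x ∈ box (0 : Site d) (L ^ 2), ∀ y ∈ box (0 : Site d) (L ^ 2),
    2 * L < sd x y → ∀ E ∈ I, FGood V L x E μ ∨ FGood V L y E μ

/-- Spectral separation of the inner cube and of the shell around it. -/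
def Sep (V : Site d → ℝ) (I : Set ℝ) (k₀ : ℕ) : Prop :=
  ∀ k : ℕ, k₀ ≤ k → ∀ E ∈ I, NoEig V (box 0 (5 * k)) E (Real.exp (-√k)) ∨
    NoEig V (box 0 (8 * k) \ box 0 (5 * k)) E (Real.exp (-√k))

/-! ### fractional moments -/

/-- `|t| ^ (1/8)` -/
def p8 (t : ℝ) : ℝ≥0∞ := ENNReal.ofReal (|t| ^ (1 / 8 : ℝ))

/-- `|G| ^ (1/8)` -/
def pg (Λ : Finset (Site d)) (E : ℝ) (x y : Site d) (V : Site d → ℝ) : ℝ≥0∞ :=
  p8 (gr V Λ E x y)

/-- The initial scale estimate in the bulk, at the energy `E`: only full cubes. -/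
def BulkInit (d : ℕ) (ν : Measure ℝ) (L : ℕ) (ε E : ℝ) : Prop :=
  ∀ x u : Site d, sd x u = L →
    ∫⁻ V, pg (box x L) E x u V ∂(PL ν (box x L)) ≤ ENNReal.ofReal ε

/-- The finite volume criterion at the energy `E` and the scale `L`. -/
def Crit (d : ℕ) (C₀ σ E : ℝ) (L : ℕ) : Prop :=
  ∃ ε : ℝ, 0 ≤ ε ∧ C₀ * (1 + 1 / |σ|) * (2 * L + 5) ^ (6 * d) * ε ≤ Real.exp (-1) ∧
    BulkInit d (gl σ) L ε E

/-- The energies near which the finite volume criterion holds, at some scale. -/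
def LocSet (d : ℕ) (C₀ σ : ℝ) : Set ℝ :=
  {E | ∃ h : ℝ, 0 < h ∧ ∃ L : ℕ, ∀ F ∈ Set.Icc (E - h) (E + h), Crit d C₀ σ F L}

/-- Fixed energy decay in probability, for the energies of `I`, in full cubes. -/
def BulkDecay (d : ℕ) (ν : Measure ℝ) (I : Set ℝ) (C μ : ℝ) : Prop :=
  ∀ (x u : Site d) (R : ℕ) (E : ℝ), E ∈ I → sd x u = R →
    PL ν (box x R) {V | ¬ Good V (box x R) E x u (Real.exp (-μ * R))} ≤
      ENNReal.ofReal (C * Real.exp (-μ * R))

/-! ### infinite volume -/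

/-- `∫_J ∑_{|u - x| ≥ ℓ} |G(x, u; E + iη)|² dE` -/
def spr (V : Site d → ℝ) (x : Site d) (η : ℝ) (J : Set ℝ) (ℓ : ℕ) : ℝ≥0∞ :=
  ∫⁻ E in J, ∑' u : Site d, if ℓ ≤ sd x u then
    ENNReal.ofReal (‖G V (zz η E) (del x) u‖ ^ 2) else 0

/-- `∑_{|x| ≥ R} |G(0, x; E + i/T)|² / T`, integrated over the energies of `J` -/
def spread (V : Site d → ℝ) (T R : ℝ) (J : Set ℝ) : ℝ≥0∞ :=
  ∫⁻ E in J, ∑' x : Site d, if R ≤ (sd 0 x : ℝ) then
    ENNReal.ofReal (‖G V (zz (1 / T) E) (del 0) x‖ ^ 2 / T) else 0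

/-- The time averaged moment `(2/T) ∫₀^∞ e^{-2t/T} ∑_x |x|^p |ψ_t(x)|² dt`. -/
def avgMoment (ψ : ℝ → L2 d) (T p : ℝ) : ℝ≥0∞ :=
  ∫⁻ t in Set.Ioi (0 : ℝ), ∑' x : Site d,
    ENNReal.ofReal (2 / T * Real.exp (-2 * t / T) * ((sd 0 x : ℝ) ^ p * ‖ψ t x‖ ^ 2))

/-! ### basic facts about `p8` and `pg` -/

theorem measurable_p8 : Measurable p8 := by
  unfold p8
  exact ENNReal.measurable_ofReal.comp (measurable_id.abs.pow_const _)

theorem p8_zero : p8 0 = 0 := by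
  unfold p8
  rw [abs_zero, Real.zero_rpow (by norm_num), ENNReal.ofReal_zero]

theorem p8_mul (a b : ℝ) : p8 (a * b) = p8 a * p8 b := by
  unfold p8
  rw [abs_mul, Real.mul_rpow (abs_nonneg _) (abs_nonneg _), ENNReal.ofReal_mul (by positivity)]

theorem p8_mono {a b : ℝ} (h : |a| ≤ |b|) : p8 a ≤ p8 b :=
  ENNReal.ofReal_le_ofReal (Real.rpow_le_rpow (abs_nonneg _) h (by norm_num))

theorem p8_neg (a : ℝ) : p8 (-a) = p8 a := by
  unfold p8
  rw [abs_neg]

theorem p8_add (a b : ℝ) : p8 (a + b) ≤ p8 a + p8 b := by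
  unfold p8
  rw [← ENNReal.ofReal_add (by positivity) (by positivity)]
  apply ENNReal.ofReal_le_ofReal
  calc |a + b| ^ (1 / 8 : ℝ) ≤ (|a| + |b|) ^ (1 / 8 : ℝ) :=
        Real.rpow_le_rpow (abs_nonneg _) (abs_add_le _ _) (by norm_num)
    _ ≤ _ := Real.rpow_add_le_add_rpow (abs_nonneg _) (abs_nonneg _) (by norm_num) (by norm_num)

theorem p8_sum {ι : Type*} (s : Finset ι) (f : ι → ℝ) : p8 (∑ i ∈ s, f i) ≤ ∑ i ∈ s, p8 (f i) := by
  classical
  induction s using Finset.induction_on with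
  | empty => simp [p8_zero]
  | insert a s ha ih =>
    rw [Finset.sum_insert ha, Finset.sum_insert ha]
    exact (p8_add _ _).trans (by gcongr)

theorem measurable_pg (Λ : Finset (Site d)) (E : ℝ) (x y : Site d) : Measurable (pg Λ E x y) :=
  measurable_p8.comp (measurable_gr Λ E x y)

theorem only_pg (Λ : Finset (Site d)) (E : ℝ) (x y : Site d) : Only (pg Λ E x y) Λ := by
  intro V V' h
  unfold pg
  rw [gr_congr h]

/-- `|t| ^ (1/8) ≤ 1 + |t| ^ (1/2)` -/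
theorem p8_le (t : ℝ) : p8 t ≤ 1 + ENNReal.ofReal (√|t|) := by
  unfold p8
  rw [← ENNReal.ofReal_one, ← ENNReal.ofReal_add (by norm_num) (by positivity)]
  apply ENNReal.ofReal_le_ofReal
  rcases le_total |t| 1 with h | h
  · have := Real.rpow_le_one (abs_nonneg t) h (by norm_num : (0:ℝ) ≤ 1 / 8)
    have := Real.sqrt_nonneg |t|
    linarith
  · have := Real.rpow_le_rpow_of_exponent_le h (by norm_num : (1 / 8 : ℝ) ≤ 1 / 2)
    rw [← Real.sqrt_eq_rpow] at this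
    linarith

/-- `|t| ^ (1/4) ≤ 1 + |t| ^ (1/2)` -/
theorem p8_sq_le (t : ℝ) : p8 t ^ 2 ≤ 1 + ENNReal.ofReal (√|t|) := by
  unfold p8
  rw [← ENNReal.ofReal_pow (by positivity), ← ENNReal.ofReal_one,
    ← ENNReal.ofReal_add (by norm_num) (by positivity)]
  apply ENNReal.ofReal_le_ofReal
  rw [← Real.rpow_natCast, ← Real.rpow_mul (abs_nonneg _)]
  norm_num
  rcases le_total |t| 1 with h | h
  · have := Real.rpow_le_one (abs_nonneg t) h (by norm_num : (0:ℝ) ≤ 1 / 4)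
    have := Real.sqrt_nonneg |t|
    linarith
  · have := Real.rpow_le_rpow_of_exponent_le h (by norm_num : (1 / 4 : ℝ) ≤ 1 / 2)
    rw [← Real.sqrt_eq_rpow] at this
    linarith

end Pool.Agent.Mob
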