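import Pool.Agent.Mob.Stmts

/-!
# Metal-insulator transport transition: the modules of the second version (constant 6)

The proofs are in `/team-store/PAPER_T2.md`, part G (the section has the name of the module).
-/

set_option autoImplicit false

open MeasureTheory ProbabilityTheory Function

open scoped ENNReal BigOperators InnerProductSpace

noncomputable section

namespace Pool.Agent.Mob

open Pool.Agent.Anderson Pool.Agent.Loc Pool.Agent.Helper54.Bal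

/-- HL2: from the height `η` down to the real axis, in the square mean. -/
def Hl2Stmt : Prop :=
  ∃ C : ℝ, 0 < C ∧ ∀ (d : ℕ) (V : Site d → ℝ) (Λ : Finset (Site d)) (x y : Site d)
    (E r η : ℝ), 0 < η → 8 * η ≤ r → NoEig V Λ E (2 * r) →
    ENNReal.ofReal (|gr V Λ E x y| ^ 2) ≤
      ENNReal.ofReal (C / η) * (∫⁻ F in Set.Icc (E - r) (E + r),
        ENNReal.ofReal (‖gz V Λ (zz η F) x y‖ ^ 2)) +
      ENNReal.ofReal (C / r ^ 2 * Real.exp (-r / (2 * η)))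

/-- FV2: finite volume against infinite volume, at positive height, in the square mean. -/
def Fv2Stmt : Prop :=
  ∀ (d : ℕ) (V : Site d → ℝ) (Λ : Finset (Site d)) (η E : ℝ) (ℓ : ℕ) (x : Site d), 0 < η →
    x ∈ Λ → (∀ u, u ∉ Λ → ℓ ≤ sd x u) →
    ∑ y ∈ Λ.filter (fun y => ℓ ≤ sd x y), ENNReal.ofReal (‖gz V Λ (zz η E) x y‖ ^ 2) ≤
      ENNReal.ofReal ((1 + 2 * d / η) ^ 2) * (∑' u : Site d, if ℓ ≤ sd x u then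
        ENNReal.ofReal (‖G V (zz η E) (del x) u‖ ^ 2) else 0)

/-- A weakly good cell: the row sums of the Green function, from the cube of radius `ℓ` to the
boundary of the cube of radius `3ℓ`, are at most `γ`. -/
def CellG2 {d : ℕ} (V : Site d → ℝ) (c : Site d) (ℓ : ℕ) (γ E : ℝ) : Prop :=
  (RM V (box c (3 * ℓ)) E).det ≠ 0 ∧ ∀ x ∈ box c ℓ,
    ∑ y ∈ (box c (3 * ℓ)).filter (fun y => sd c y = 3 * ℓ),
      |gr V (box c (3 * ℓ)) E x y| ≤ γ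

/-- CE2: a small time averaged spreading makes the cells weakly good with high probability. -/
def Ce2Stmt : Prop :=
  ∀ d : ℕ, 1 ≤ d → ∀ σ : ℝ, σ ≠ 0 → ∀ δ h : ℝ, 0 < δ → δ ≤ 1 / 10 → 0 < h →
    ∃ ℓ₀ : ℕ, ∀ ℓ : ℕ, ℓ₀ ≤ ℓ → ∀ η : ℝ, (ℓ : ℝ) ^ (-((d : ℝ) + 2 * δ)) ≤ η →
      η ≤ (ℓ : ℝ) ^ (-((d : ℝ) + δ)) → ∀ a b : ℝ,
      ENNReal.ofReal η * ∫⁻ V, spr V 0 η (Set.Ioo a b) ℓ ∂(PP d (gl σ)) ≤
        ENNReal.ofReal ((ℓ : ℝ) ^ (-(6 * (d : ℝ)))) →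
      ∀ E : ℝ, a + h ≤ E → E + h ≤ b → ∀ c : Site d,
        PL (gl σ) (box c (3 * ℓ)) {V | ¬ CellG2 V c ℓ ((ℓ : ℝ) ^ (-(1 / 20 : ℝ))) E} ≤
          ENNReal.ofReal ((ℓ : ℝ) ^ (-(δ / 4)))

/-- KST: from weakly good cells to a good cell at a larger scale. -/
def KstStmt : Prop :=
  ∀ (d : ℕ) (V : Site d → ℝ) (c : Site d) (E γ τ : ℝ) (K ℓ : ℕ), 1 ≤ ℓ → 1 ≤ K → 0 ≤ γ →
    0 ≤ τ →
    (∀ k ∈ box (0 : Site d) (14 * K), CellG2 V (fun j => c j + ℓ * k j) ℓ γ E) →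
    (RM V (box c (3 * (8 * K * ℓ))) E).det ≠ 0 →
    (∀ x y, |gr V (box c (3 * (8 * K * ℓ))) E x y| ≤ τ) →
    CellGood V c (8 * K * ℓ) ((2 * d * γ) ^ K * τ) E

/-- CE3: a small time averaged spreading makes the larger cells good with high probability. -/
def Ce3Stmt : Prop :=
  ∀ d : ℕ, 1 ≤ d → ∃ K : ℕ, 1 ≤ K ∧ ∀ σ : ℝ, σ ≠ 0 → ∀ δ h : ℝ, 0 < δ → δ ≤ 1 / 10 → 0 < h →
    ∃ ℓ₀ : ℕ, ∀ ℓ : ℕ, ℓ₀ ≤ ℓ → ∀ η : ℝ, (ℓ : ℝ) ^ (-((d : ℝ) + 2 * δ)) ≤ η →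
      η ≤ (ℓ : ℝ) ^ (-((d : ℝ) + δ)) → ∀ a b : ℝ,
      ENNReal.ofReal η * ∫⁻ V, spr V 0 η (Set.Ioo a b) ℓ ∂(PP d (gl σ)) ≤
        ENNReal.ofReal ((ℓ : ℝ) ^ (-(6 * (d : ℝ)))) →
      ∀ E : ℝ, a + h ≤ E → E + h ≤ b → ∀ c : Site d,
        PL (gl σ) (box c (3 * (8 * K * ℓ)))
            {V | ¬ CellGood V c (8 * K * ℓ) (((8 * K * ℓ : ℕ) : ℝ) ^ (-(120 * (d : ℝ)))) E} ≤
          ENNReal.ofReal (((8 * K * ℓ : ℕ) : ℝ) ^ (-(δ / 8)))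

/-- IN2: slow spreading near `E₀` implies `E₀ ∈ LocSet`. -/
def In2Stmt : Prop :=
  ∀ d : ℕ, 1 ≤ d → ∀ C₀ σ : ℝ, 0 < C₀ → σ ≠ 0 → ∀ δ a b E₀ : ℝ, 0 < δ → δ ≤ 1 → a < E₀ →
    E₀ < b → ∃ T₀ : ℝ, 1 ≤ T₀ ∧ ∀ T : ℝ, T₀ ≤ T →
      ∫⁻ V, spread V T (T ^ (1 / ((d : ℝ) + δ))) (Set.Ioo a b) ∂(PP d (gl σ)) <
        ENNReal.ofReal (T ^ (-6 : ℝ)) → E₀ ∈ LocSet d C₀ σ

end Pool.Agent.Mob
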