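import Pool.Agent.Mob.Stmts

/-!
# Metal-insulator transport transition: dynamical localization in `Loc`

The proofs are in `/team-store/PAPER_T2.md`, part H (the section has the name of the module).
-/

set_option autoImplicit false

open MeasureTheory ProbabilityTheory Function

open scoped ENNReal BigOperators InnerProductSpace

noncomputable section

namespace Pool.Agent.Mob

open Pool.Agent.Anderson Pool.Agent.Loc Pool.Agent.Helper54.Bal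

/-- TBP: two distant cubes, the probability at a given scale. -/
def TbpStmt : Prop :=
  ∀ (d : ℕ) (ν : Measure ℝ) [IsProbabilityMeasure ν] (a b C μ : ℝ),
    BulkDecay d ν (Set.Icc a b) C μ → ∀ (L : ℕ) (x y : Site d), 2 * L < sd x y →
    PP d ν {V | ∃ E ∈ Set.Icc a b, ¬ FGood V L x E μ ∧ ¬ FGood V L y E μ} ≤
      ENNReal.ofReal (5 * |C| * (2 * L + 1) ^ (3 * d) * Real.exp (-μ * L))

/-- TOT: the total mass. -/
def TotStmt : Prop :=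
  ∀ (d : ℕ) (V : Site d → ℝ) (T R : ℝ) (J : Set ℝ), 0 < T →
    spread V T R J ≤ ENNReal.ofReal Real.pi

/-- CTH: Combes-Thomas estimate. -/
def CthStmt : Prop :=
  ∀ (d : ℕ) (V : Site d → ℝ) (η E a : ℝ), 0 < η → 0 ≤ a → 2 * d * (Real.exp a - 1) ≤ η / 2 →
    ∑' u : Site d, ENNReal.ofReal (Real.exp (2 * a * sd 0 u) *
      ‖G V (zz η E) (del 0) u‖ ^ 2) ≤ ENNReal.ofReal (4 / η ^ 2)

/-- AFV: approximation by a cube. -/
def AfvStmt : Prop :=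
  ∀ (d : ℕ) (V : Site d → ℝ) (η E a : ℝ) (n : ℕ) (y : Site d), 0 < η → 0 ≤ a →
    2 * d * (Real.exp a - 1) ≤ η / 2 → y ∈ box (0 : Site d) n →
    ‖G V (zz η E) (del 0) y‖ ≤ ‖gz V (box 0 n) (zz η E) 0 y‖ +
      4 * d / η ^ 2 * Real.exp (-a * n)

/-- EXP: expansion in eigenvectors, in a finite set. -/
def ExpStmt : Prop :=
  ∀ (d : ℕ) (V : Site d → ℝ) (Λ : Finset (Site d)), ∃ (lam : Λ → ℝ) (φ : Λ → Site d → ℝ),
    (∀ j x, x ∉ Λ → φ j x = 0) ∧ (∀ j, ∑ x ∈ Λ, φ j x ^ 2 = 1) ∧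
    (∀ x ∈ Λ, ∑ j, φ j x ^ 2 = 1) ∧
    (∀ j, ∀ x ∈ Λ, lap (fun v => (φ j v : ℂ)) x + (V x : ℂ) * φ j x = (lam j : ℂ) * φ j x) ∧
    (∀ E : ℝ, (RM V Λ E).det = 0 ↔ ∃ j, lam j = E) ∧
    (∀ z : ℂ, (∀ j, z ≠ lam j) → ∀ x y : Site d,
      gz V Λ z x y = ∑ j, ((φ j x * φ j y : ℝ) : ℂ) / (z - lam j))

/-- DLB: the Green function at positive height, between `0` and `y`, if at each energy near `E`
one of the cubes about `0` and `y` is good. -/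
def DlbStmt : Prop :=
  ∀ (d : ℕ) (V : Site d → ℝ) (μ E h η s κ N : ℝ) (L n : ℕ) (y : Site d), 1 ≤ d → 0 < η →
    8 * η ≤ h → 0 < s → 2 * s ≤ h → κ = 2 * d * (2 * L + 1) ^ d * Real.exp (-μ * L) →
    N = (2 * n + 1) ^ d → L < sd 0 y → sd 0 y + L ≤ n →
    (∀ F : ℝ, |F - E| ≤ 2 * h → FGood V L 0 F μ ∨ FGood V L y F μ) →
    ‖gz V (box 0 n) (zz η E) 0 y‖ ≤ N * κ / η + 3 * ((N + 1) ^ 2 * κ / s + 4 * s / h ^ 2) +
      3 / h * Real.exp (-h / (4 * η))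

/-- INS: no spreading faster than any power. -/
def InsStmt : Prop :=
  ∀ (d : ℕ) (ν : Measure ℝ) [IsProbabilityMeasure ν] (a b h C μ : ℝ), 1 ≤ d → 0 < μ → 0 < h →
    BulkDecay d ν (Set.Icc (a - 2 * h) (b + 2 * h)) C μ → ∀ β k : ℝ, 0 < β →
      ∃ T₀ : ℝ, ∀ T : ℝ, T₀ ≤ T →
        ∫⁻ V, spread V T (T ^ β) (Set.Ioo a b) ∂(PP d ν) ≤ ENNReal.ofReal (T ^ (-k))

end Pool.Agent.Mob
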